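import Mathlib

/-!
# Type B regular sequences can be shorter than type A ones for two given integers

`b(9, 24) ≤ 7 < 8 = a(9, 24)`.
-/

namespace Pool.Agent.Results.MP_5ec752_co.TypeBShorter

/-- Type A regular sequences: built from `(1,1)` by adding an entry at the left end equal to the sum
of the first `j ≥ 1` entries, or an entry at the right end equal to the sum of the last entries from
position `j` on (a nonempty block). -/
inductive TypeA : List ℕ → Prop
  | base : TypeA [1, 1]
  | left (d : List ℕ) (j : ℕ) : TypeA d → 1 ≤ j → j ≤ d.length → TypeA ((d.take j).sum :: d)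
  | right (d : List ℕ) (j : ℕ) : TypeA d → j < d.length → TypeA (d ++ [(d.drop j).sum])

/-- Type B regular sequences: built from `(1,1)` by adding at the left or right end an entry equal
to the sum of a nonempty block `m` of consecutive entries. -/
inductive TypeB : List ℕ → Prop
  | base : TypeB [1, 1]
  | left (l m r : List ℕ) : TypeB (l ++ m ++ r) → m ≠ [] → TypeB (m.sum :: (l ++ m ++ r))
  | right (l m r : List ℕ) : TypeB (l ++ m ++ r) → m ≠ [] → TypeB ((l ++ m ++ r) ++ [m.sum])

/-- `a(k₁, …, k_m)`: the least length of a type A regular sequence that has a permutation of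
`(k₁, …, k_m)` as a subsequence. -/
noncomputable def a (ks : List ℕ) : ℕ := sInf {n | ∃ d, TypeA d ∧ d.length = n ∧ ks.Subperm d}

/-- `b(k₁, …, k_m)`: the same with type B regular sequences. -/
noncomputable def b (ks : List ℕ) : ℕ := sInf {n | ∃ d, TypeB d ∧ d.length = n ∧ ks.Subperm d}

/-- The type A regular sequences of length `n + 2`. -/
def listA : ℕ → List (List ℕ)
  | 0 => [[1, 1]]
  | n + 1 => (listA n).flatMap fun d =>
      (List.range d.length).map (fun j => (d.take (j + 1)).sum :: d) ++
      (List.range d.length).map (fun j => d ++ [(d.drop j).sum])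

lemma two_le (d : List ℕ) (h : TypeA d) : 2 ≤ d.length := by
  induction h with
  | base => simp
  | left d j _ _ _ ih => simp; omega
  | right d j _ _ ih => simp; omega

lemma mem_listA (d : List ℕ) (h : TypeA d) : d ∈ listA (d.length - 2) := by
  induction h with
  | base => simp [listA]
  | left d j hd h1 h2 ih =>
    have := two_le d hd
    rw [List.length_cons, show d.length + 1 - 2 = (d.length - 2) + 1 by omega, listA,
      List.mem_flatMap]
    refine ⟨d, ih, List.mem_append_left _ (List.mem_map.mpr ⟨j - 1, ?_, ?_⟩)⟩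
    · rw [List.mem_range]; omega
    · rw [show j - 1 + 1 = j by omega]
  | right d j hd h1 ih =>
    have := two_le d hd
    rw [List.length_append, List.length_singleton,
      show d.length + 1 - 2 = (d.length - 2) + 1 by omega, listA, List.mem_flatMap]
    exact ⟨d, ih, List.mem_append_right _ (List.mem_map.mpr ⟨j, List.mem_range.mpr h1, rfl⟩)⟩

/-- The test: `9` and `24` do not both occur. -/
def ok (d : List ℕ) : Bool := !(d.elem 24 && d.elem 9)

lemma all_ok : ∀ n ∈ List.range 6, (listA n).all ok = true := by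
  decide +kernel

lemma a_ge (d : List ℕ) (hd : TypeA d) (hs : [9, 24].Subperm d) : 8 ≤ d.length := by
  by_contra hlt
  have h2 := two_le d hd
  have h3 := all_ok (d.length - 2) (List.mem_range.mpr (by omega))
  have h4 := List.all_eq_true.mp h3 d (mem_listA d hd)
  have h5 : 9 ∈ d := hs.subset (by simp)
  have h6 : 24 ∈ d := hs.subset (by simp)
  have h7 : d.elem 24 = true := List.elem_eq_true_of_mem h6
  have h8 : d.elem 9 = true := List.elem_eq_true_of_mem h5
  rw [ok, h7, h8] at h4
  exact absurd h4 (by decide)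

lemma a_example : TypeA [24, 6, 4, 2, 1, 1, 1, 9] := by
  have h1 : TypeA [1, 1] := TypeA.base
  have h2 : TypeA [1, 1, 1] := TypeA.left _ 1 h1 (by decide) (by decide)
  have h3 : TypeA [2, 1, 1, 1] := TypeA.left _ 2 h2 (by decide) (by decide)
  have h4 : TypeA [4, 2, 1, 1, 1] := TypeA.left _ 3 h3 (by decide) (by decide)
  have h5 : TypeA [6, 4, 2, 1, 1, 1] := TypeA.left _ 2 h4 (by decide) (by decide)
  have h6 : TypeA [6, 4, 2, 1, 1, 1, 9] := TypeA.right _ 1 h5 (by decide)
  exact TypeA.left _ 7 h6 (by decide) (by decide)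

lemma b_example : TypeB [24, 9, 4, 2, 1, 1, 7] := by
  have h1 : TypeB [1, 1] := TypeB.base
  have h2 : TypeB [2, 1, 1] := TypeB.left [] [1, 1] [] h1 (by decide)
  have h3 : TypeB [4, 2, 1, 1] := TypeB.left [] [2, 1, 1] [] h2 (by decide)
  have h4 : TypeB [4, 2, 1, 1, 7] := TypeB.right [] [4, 2, 1] [1] h3 (by decide)
  have h5 : TypeB [9, 4, 2, 1, 1, 7] := TypeB.left [4, 2] [1, 1, 7] [] h4 (by decide)
  exact TypeB.left [] [9, 4, 2, 1, 1, 7] [] h5 (by decide)

/-- **The two parameters can differ for two integers.**  `b(9,24) ≤ 7` and `a(9,24) = 8`; in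
particular `b(k₁,k₂) < a(k₁,k₂)` for some positive integers `k₁, k₂`. -/
theorem result : (∃ k₁ k₂ : ℕ, 0 < k₁ ∧ 0 < k₂ ∧ b [k₁, k₂] < a [k₁, k₂]) ∧
    b [9, 24] ≤ 7 ∧ a [9, 24] = 8 := by
  have hb : b [9, 24] ≤ 7 := Nat.sInf_le ⟨_, b_example, rfl, by decide⟩
  have hmem : 8 ∈ {n | ∃ d, TypeA d ∧ d.length = n ∧ [9, 24].Subperm d} :=
    ⟨_, a_example, rfl, by decide⟩
  have ha : a [9, 24] = 8 := by
    apply le_antisymm (Nat.sInf_le hmem)
    obtain ⟨d, h1, h2, h3⟩ := Nat.sInf_mem (s := {n | ∃ d, TypeA d ∧ d.length = n ∧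
      [9, 24].Subperm d}) ⟨8, hmem⟩
    have := a_ge d h1 h3
    rw [h2] at this
    exact this
  exact ⟨⟨9, 24, by norm_num, by norm_num, by omega⟩, hb, ha⟩

end Pool.Agent.Results.MP_5ec752_co.TypeBShorter
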